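import Pool.Agent.H20.ER3.Lib

/-!
# MP_816b90_co: row C4
-/

set_option autoImplicit false

namespace Pool.Agent.H90.ER3

open Pool.Agent.H48.ER Pool.Agent.H52.ER2 Pool.Agent.H66.ER2 Pool.Agent.H20.ER3

variable {V : Type} {H : SimpleGraph V} {R : Set V}

/-- the interior of a path through `R` is connected and is seen by the ends of the path -/
theorem path_sees {n : ℕ} {x y : V ⊕ Set V} {X : Set (V ⊕ Set V)} (hX : IP (MG H R) n x y X)
    (hn : 2 ≤ n) (hx : ¬ InR R x) (hy : ¬ InR R y) (hint : ∀ w ∈ X, w = x ∨ w = y ∨ InR R w) :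
    ∃ c d : V, x = Sum.inl c ∧ y = Sum.inl d ∧ Sees H R {r | r ∈ R ∧ Sum.inl r ∈ X} c ∧
      Sees H R {r | r ∈ R ∧ Sum.inl r ∈ X} d := by
  obtain ⟨g, g0, gn, gi, ga, hXe⟩ := hX
  have hin : ∀ i, 1 ≤ i → i + 1 ≤ n → InR R (g i) := by
    intro i h1 h2
    rcases hint (g i) (by rw [hXe]; exact ⟨i, by omega, rfl⟩) with h | h | h
    · rw [← g0] at h
      have := gi i 0 (by omega) (by omega) h
      omega
    · rw [← gn] at h
      have := gi i n (by omega) (by omega) h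
      omega
    · exact h
  have hex : ∀ i, ∃ r : V, 1 ≤ i → i + 1 ≤ n → r ∈ R ∧ g i = Sum.inl r := by
    obtain ⟨r₀, hr₀, _⟩ := hin 1 le_rfl (by omega)
    intro i
    by_cases h : 1 ≤ i ∧ i + 1 ≤ n
    · obtain ⟨r, hr, e⟩ := hin i h.1 h.2
      exact ⟨r, fun _ _ => ⟨hr, e⟩⟩
    · exact ⟨r₀, fun h1 h2 => absurd ⟨h1, h2⟩ h⟩
  choose p hp using hex
  have hF : IP H (n - 2) (p 1) (p (n - 1)) {r | r ∈ R ∧ Sum.inl r ∈ X} := by
    refine ⟨fun i => p (i + 1), rfl, ?_, ?_, ?_, ?_⟩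
    · show p (n - 2 + 1) = p (n - 1)
      rw [show n - 2 + 1 = n - 1 by omega]
    · intro i j hi hj e
      have h1 := (hp (i + 1) (by omega) (by omega)).2
      have h2 := (hp (j + 1) (by omega) (by omega)).2
      have h3 : g (i + 1) = g (j + 1) := by
        rw [h1, h2]
        exact congrArg Sum.inl e
      have := gi _ _ (by omega) (by omega) h3
      omega
    · intro i j hi hj
      have h1 := (hp (i + 1) (by omega) (by omega)).2
      have h2 := (hp (j + 1) (by omega) (by omega)).2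
      have h3 := ga (i + 1) (j + 1) (by omega) (by omega)
      rw [h1, h2, mg_ll] at h3
      show H.Adj (p (i + 1)) (p (j + 1)) ↔ _
      rw [h3]
      omega
    · ext v
      constructor
      · rintro ⟨hv, hvX⟩
        rw [hXe] at hvX
        obtain ⟨i, hi, e⟩ := hvX
        have h1 : i ≠ 0 := by
          rintro rfl
          exact hx ⟨v, hv, by rw [← g0, e]⟩
        have h2 : i ≠ n := by
          rintro rfl
          exact hy ⟨v, hv, by rw [← gn, e]⟩
        refine ⟨i - 1, by omega, ?_⟩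
        have h3 := (hp i (by omega) (by omega)).2
        rw [e] at h3
        show p (i - 1 + 1) = v
        rw [show i - 1 + 1 = i by omega]
        exact (Sum.inl.inj h3).symm
      · rintro ⟨i, hi, rfl⟩
        have h1 := hp (i + 1) (by omega) (by omega)
        refine ⟨h1.1, ?_⟩
        show Sum.inl (p (i + 1)) ∈ X
        rw [← h1.2, hXe]
        exact ⟨i + 1, by omega, rfl⟩
  have hC := ip_cn hF
  have hsub : {r | r ∈ R ∧ Sum.inl r ∈ X} ⊆ R := fun r hr => hr.1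
  have h1 := hp 1 le_rfl (by omega)
  have h2 := hp (n - 1) (by omega) (by omega)
  have a1 : (MG H R).Adj (Sum.inl (p 1)) x := by
    rw [← g0, ← h1.2, ga 1 0 (by omega) (by omega)]
    right; rfl
  have a2 : (MG H R).Adj (Sum.inl (p (n - 1))) y := by
    rw [← gn, ← h2.2, ga (n - 1) n (by omega) (by omega)]
    left; omega
  obtain ⟨c, rfl, hc⟩ := inR_adj h1.1 a1
  obtain ⟨d, rfl, hd⟩ := inR_adj h2.1 a2
  refine ⟨c, d, rfl, rfl, ⟨fun h => hx (InR.inl_iff.2 h), hsub, hC, p 1, ?_, hc.symm⟩,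
    ⟨fun h => hy (InR.inl_iff.2 h), hsub, hC, p (n - 1), ?_, hd.symm⟩⟩
  · refine ⟨h1.1, ?_⟩
    rw [← h1.2, hXe]
    exact ⟨1, by omega, rfl⟩
  · refine ⟨h2.1, ?_⟩
    rw [← h2.2, hXe]
    exact ⟨n - 1, by omega, rfl⟩

theorem not_sees {X : Set (V ⊕ Set V)} {e : V}
    (h : ∀ w ∈ X, InR R w → ¬ (MG H R).Adj (Sum.inl e) w) :
    ¬ Sees H R {r | r ∈ R ∧ Sum.inl r ∈ X} e := by
  rintro ⟨_, _, _, f, ⟨hf1, hf2⟩, hf⟩
  exact h _ hf2 (InR.inl_iff.2 hf1) hf

theorem c4_core (hPX : U_PX) (hGE : U_GE) {n : Fin 3 → ℕ} {g : Fin 3 → ℕ → V ⊕ Set V}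
    {l : Fin 3 → ℕ} (hE : EvS H R) (hA : AsS H R) (hP : PI (MG H R) n g)
    (hl : ∀ i, 1 ≤ l i ∧ l i ≤ n i ∧ (∀ x, x < l i → InR R (g i x)) ∧ ¬ InR R (g i (l i)))
    {m i j : Fin 3} (hmi : m ≠ i) (hmj : m ≠ j) (hij : i ≠ j) (hm : l m ≠ n m) : False := by
  have hpath : ∀ a b : Fin 3, a ≠ b → ¬ (l a = n a ∧ l b = n b) →
      IP (MG H R) (l a + 1 + l b) (g a (l a)) (g b (l b)) (seg (g a) 0 (l a) ∪ seg (g b) 0 (l b)) ∧
      (∀ w ∈ seg (g a) 0 (l a) ∪ seg (g b) 0 (l b), w = g a (l a) ∨ w = g b (l b) ∨ InR R w) := by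
    intro a b hab hnot
    refine ⟨hPX _ _ n g a b (l a) (l b) hP hab (hl a).2.1 (hl b).2.1 hnot, ?_⟩
    rintro w (⟨x, _, hx, rfl⟩ | ⟨x, _, hx, rfl⟩)
    · rcases Nat.lt_or_eq_of_le hx with h | h
      · exact Or.inr (Or.inr ((hl a).2.2.1 x h))
      · left; rw [h]
    · rcases Nat.lt_or_eq_of_le hx with h | h
      · exact Or.inr (Or.inr ((hl b).2.2.1 x h))
      · right; left; rw [h]
  have hev : ∀ a b : Fin 3, a ≠ b → ¬ (l a = n a ∧ l b = n b) → Even (l a + 1 + l b) := by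
    intro a b hab hnot
    obtain ⟨h1, h2⟩ := hpath a b hab hnot
    exact hGE V H R _ _ _ _ hE h1 (by have := (hl a).1; omega) (hl a).2.2.2 (hl b).2.2.2 h2
  have e1 := hev m i hmi fun h => hm h.1
  have e2 := hev m j hmj fun h => hm h.1
  have hfull : l i = n i ∧ l j = n j := by
    by_contra h
    have e3 := hev i j hij h
    rw [Nat.even_iff] at e1 e2 e3
    omega
  obtain ⟨fi, fj⟩ := hfull
  have hni := hP.pos i
  have hnj := hP.pos j
  have hlm := (hl m).1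
  have hlm' := (hl m).2.1
  obtain ⟨p1, q1⟩ := hpath m i hmi fun h => hm h.1
  obtain ⟨p2, q2⟩ := hpath m j hmj fun h => hm h.1
  obtain ⟨c1, c2, hc1, hc2, s1, s2⟩ := path_sees p1 (by omega) (hl m).2.2.2 (hl i).2.2.2 q1
  obtain ⟨c1', c3, hc1', hc3, s1', s3⟩ := path_sees p2 (by omega) (hl m).2.2.2 (hl j).2.2.2 q2
  have hcc : c1' = c1 := Sum.inl.inj (by rw [← hc1', ← hc1])
  subst hcc
  have hR3 : c3 ∉ R := fun h => (hl j).2.2.2 (by rw [hc3]; exact InR.inl_iff.2 h)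
  have adj : ∀ a b k k', k ≤ n a → k' ≤ n b → a ≠ b → (MG H R).Adj (g a k) (g b k') →
      (k = 0 ∧ k' = 0) ∨ (k = n a ∧ k' = n b) := by
    intro a b k k' h1 h2 h3 h4
    rcases (hP.adj a b k k' h1 h2).1 h4 with h | h
    · exact absurd h.1 h3
    · exact h.2
  have ns : ∀ a b : Fin 3, a ≠ b → m ≠ a → m ≠ b → l a = n a → l b = n b →
      ∀ w ∈ seg (g m) 0 (l m) ∪ seg (g a) 0 (l a), InR R w → ¬ (MG H R).Adj (g b (l b)) w := by
    intro a b hab hma hmb fa fb w hw hwR hadj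
    have hnb := hP.pos b
    rcases hw with ⟨x, _, hx, rfl⟩ | ⟨x, _, hx, rfl⟩
    · rcases adj b m (l b) x (hl b).2.1 (by omega) (Ne.symm hmb) hadj with h | h
      · have := (hl b).1
        omega
      · omega
    · have hxlt : x < l a := by
        rcases Nat.lt_or_eq_of_le hx with h | h
        · exact h
        · exact absurd hwR (by rw [h]; exact (hl a).2.2.2)
      rcases adj b a (l b) x (hl b).2.1 (by omega) (Ne.symm hab) hadj with h | h
      · have := (hl b).1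
        omega
      · omega
  refine hA c1' c2 c3 _ _ ?_ ?_ ?_ s1 s2 (not_sees ?_) hR3 s1' s3 (not_sees ?_)
  · rw [← mg_ll (R := R), ← hc2, ← hc3, hP.adj i j _ _ (hl i).2.1 (hl j).2.1]
    right
    exact ⟨hij, Or.inr ⟨fi, fj⟩⟩
  · intro h
    rw [← mg_ll (R := R), ← hc1, ← hc2] at h
    rcases adj m i _ _ hlm' (hl i).2.1 hmi h with h | h
    · omega
    · exact hm h.1
  · intro h
    rw [← mg_ll (R := R), ← hc1, ← hc3] at h
    rcases adj m j _ _ hlm' (hl j).2.1 hmj h with h | h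
    · omega
    · exact hm h.1
  · rw [← hc3]
    exact ns i j hij hmi hmj fi fj
  · rw [← hc2]
    exact ns j i (Ne.symm hij) hmj hmi fj fi

theorem pf_C4 (hPX : U_PX) (hGE : U_GE) : U_C4 := by
  intro V H R n g l hE hA hP hodd hl
  by_contra hne
  push_neg at hne
  obtain ⟨m, hm⟩ := hne
  have hex : ∀ m : Fin 3, ∃ i j : Fin 3, m ≠ i ∧ m ≠ j ∧ i ≠ j := by decide
  obtain ⟨i, j, h1, h2, h3⟩ := hex m
  exact c4_core hPX hGE hE hA hP hl h1 h2 h3 hm

end Pool.Agent.H90.ER3
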