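import Pool.Agent.H90.ER3.C4

/-!
# MP_816b90_co: row C8
-/

set_option autoImplicit false

namespace Pool.Agent.H90.ER3

open Pool.Agent.H48.ER Pool.Agent.H52.ER2 Pool.Agent.H66.ER2 Pool.Agent.H20.ER3

theorem pf_C8 (hPY : U_PY) (hPZ : U_PZ) (hPW : U_PW) (hGE : U_GE) : U_C8 := by
  intro V H R n g s t hE hA hP hodd h0 hs1 hst htn hs hsR htR ht
  by_contra hR2
  have pos0 := hP.pos 0
  have pos1 := hP.pos 1
  have pos2 := hP.pos 2
  have ho0 := hodd 0
  have ho1 := hodd 1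
  rw [Nat.odd_iff] at ho0 ho1
  -- the path through `g 1 0` and the rung `0`
  have z1 := hPZ _ _ n g 1 2 0 s (n 2) hP (by decide) (by decide) (by decide) (by omega) (by omega)
    le_rfl
  have z2 : ∀ w ∈ seg (g 1) 0 s ∪ seg (g 0) 0 (n 0) ∪ seg (g 2) (n 2) (n 2),
      w = g 1 s ∨ w = g 2 (n 2) ∨ InR R w := by
    rintro w ((⟨x, _, hx, rfl⟩ | ⟨x, _, hx, rfl⟩) | ⟨x, hx, hx', rfl⟩)
    · rcases Nat.lt_or_eq_of_le hx with h | h
      · exact Or.inr (Or.inr (hs x h))
      · left; rw [h]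
    · exact Or.inr (Or.inr (h0 x hx))
    · right; left
      rw [show x = n 2 by omega]
  have e1 := hGE V H R _ _ _ _ hE z1 (by omega) hsR hR2 z2
  -- the path through `g 1 (n 1)`
  have y1 := hPY _ _ n g 1 2 t (n 2) hP (by decide) (by omega) le_rfl (by omega)
  have y2 : ∀ w ∈ seg (g 1) t (n 1) ∪ seg (g 2) (n 2) (n 2),
      w = g 1 t ∨ w = g 2 (n 2) ∨ InR R w := by
    rintro w (⟨x, hx, hx', rfl⟩ | ⟨x, hx, hx', rfl⟩)
    · rcases Nat.lt_or_eq_of_le hx with h | h
      · exact Or.inr (Or.inr (ht x h hx'))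
      · left; rw [h]
    · right; left
      rw [show x = n 2 by omega]
  have e2 := hGE V H R _ _ _ _ hE y1 (by omega) htR hR2 y2
  rw [Nat.even_iff] at e1 e2
  have hts : t = s + 1 := by
    by_contra hne
    have h2 : s + 2 ≤ t := by
      rcases Nat.lt_or_ge t (s + 2) with h | h
      · exfalso
        have : t = s := by omega
        omega
      · exact h
    have w1 := hPW _ _ n g 1 0 s t hP (by decide) h2 (by omega)
    have w2 : ∀ w ∈ seg (g 1) 0 s ∪ seg (g 0) 0 (n 0) ∪ seg (g 1) t (n 1),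
        w = g 1 s ∨ w = g 1 t ∨ InR R w := by
      rintro w ((⟨x, _, hx, rfl⟩ | ⟨x, _, hx, rfl⟩) | ⟨x, hx, hx', rfl⟩)
      · rcases Nat.lt_or_eq_of_le hx with h | h
        · exact Or.inr (Or.inr (hs x h))
        · left; rw [h]
      · exact Or.inr (Or.inr (h0 x hx))
      · rcases Nat.lt_or_eq_of_le hx with h | h
        · exact Or.inr (Or.inr (ht x h hx'))
        · right; left; rw [h]
    have e3 := hGE V H R _ _ _ _ hE w1 (by omega) hsR htR w2
    rw [Nat.even_iff] at e3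
    omega
  obtain ⟨c2, c1, hc2, hc1, s2, s1⟩ := path_sees y1 (by omega) htR hR2 y2
  obtain ⟨c3, c1', hc3, hc1', s3, s1'⟩ := path_sees z1 (by omega) hsR hR2 z2
  have hcc : c1' = c1 := Sum.inl.inj (by rw [← hc1', ← hc1])
  subst hcc
  have hR3 : c3 ∉ R := fun h => hsR (by rw [hc3]; exact InR.inl_iff.2 h)
  refine hA c1' c2 c3 _ _ ?_ ?_ ?_ s1 s2 (not_sees ?_) hR3 s1' s3 (not_sees ?_)
  · rw [← mg_ll (R := R), ← hc2, ← hc3, hP.adj 1 1 _ _ (by omega) (by omega)]
    left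
    exact ⟨rfl, Or.inr hts.symm⟩
  · intro h
    rw [← mg_ll (R := R), ← hc1, ← hc2, hP.adj 2 1 _ _ le_rfl (by omega)] at h
    rcases h with ⟨h, _⟩ | ⟨_, h | h⟩
    · exact absurd h (by decide)
    · omega
    · omega
  · intro h
    rw [← mg_ll (R := R), ← hc1, ← hc3, hP.adj 2 1 _ _ le_rfl (by omega)] at h
    rcases h with ⟨h, _⟩ | ⟨_, h | h⟩
    · exact absurd h (by decide)
    · omega
    · omega
  · rw [← hc3]
    rintro w (⟨x, hx, hx', rfl⟩ | ⟨x, hx, hx', rfl⟩) hwR hadj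
    · rw [hP.adj 1 1 _ _ (by omega) hx'] at hadj
      rcases hadj with ⟨_, h⟩ | ⟨h, _⟩
      · have hxt : x ≠ t := by
          rintro rfl
          exact htR hwR
        omega
      · exact h rfl
    · exact hR2 (by rw [show n 2 = x by omega]; exact hwR)
  · rw [← hc2]
    rintro w ((⟨x, _, hx, rfl⟩ | ⟨x, _, hx, rfl⟩) | ⟨x, hx, hx', rfl⟩) hwR hadj
    · rw [hP.adj 1 1 _ _ (by omega) (by omega)] at hadj
      rcases hadj with ⟨_, h⟩ | ⟨h, _⟩
      · have hxs : x ≠ s := by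
          rintro rfl
          exact hsR hwR
        omega
      · exact h rfl
    · rw [hP.adj 1 0 _ _ (by omega) hx] at hadj
      rcases hadj with ⟨h, _⟩ | ⟨_, h | h⟩
      · exact absurd h (by decide)
      · omega
      · omega
    · exact hR2 (by rw [show n 2 = x by omega]; exact hwR)

end Pool.Agent.H90.ER3
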